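import Mathlib

/-!
# MP_b2f50e_co: defective colouring of linear uniform hypergraphs

The conjectured upper bound `C_r ((Δ / log Δ) (log d / d))^(1/r)` on the number of colours needed for
`d`-defective colourings of linear `(r+1)`-uniform hypergraphs of maximum degree `Δ` is false for every
`r ≥ 2`: for `d ≤ c log Δ` the defect does not help at all, some linear hypergraph still needs
`c (Δ / log Δ)^(1/r)` colours.

Proof: `D n` random `(r+1)`-tuples of `n = m s` vertices, `n` huge compared with the degree `D`. By the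
first moment method every set of `n / m` vertices contains more than `d n / m` of the tuples, and there
are few coincidences (repeated vertices in a tuple, two tuples sharing two vertices) and few vertices of
large degree. Delete those vertices (no edge inside the remaining set is lost).
-/

set_option autoImplicit false

open Finset

namespace Pool.Agent.Results.MP_b2f50e_co.DefectDoesNotHelp

/-- generating function of the number of tuples inside `S` -/
lemma sum_half (N q n : ℕ) (S : Finset (Fin n)) :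
    ∑ ω : Fin N → Fin q → Fin n, (1/2:ℝ)^(#{i | ∀ a, ω i a ∈ S})
      = ((n:ℝ)^q - (S.card:ℝ)^q/2)^N := by
  have h1 : ∀ ω : Fin N → Fin q → Fin n,
      (1/2:ℝ)^(#{i | ∀ a, ω i a ∈ S}) = ∏ i, (if ∀ a, ω i a ∈ S then (1/2:ℝ) else 1) := by
    intro ω
    rw [Finset.prod_ite]
    simp
  simp_rw [h1]
  have h2 := (Finset.prod_univ_sum (fun _ : Fin N => (univ : Finset (Fin q → Fin n)))
    (fun _ τ => if ∀ a, τ a ∈ S then (1/2:ℝ) else 1)).symm
  rw [Fintype.piFinset_univ] at h2
  rw [h2, Finset.prod_const, Finset.card_univ, Fintype.card_fin]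
  congr 1
  have h3 : (univ.filter (fun τ : Fin q → Fin n => ∀ a, τ a ∈ S)) = Fintype.piFinset (fun _ => S) := by
    ext τ
    simp [Fintype.mem_piFinset]
  have h4 : (univ.filter (fun τ : Fin q → Fin n => ∀ a, τ a ∈ S)).card = S.card ^ q := by
    rw [h3, Fintype.card_piFinset_const]
  have h5 : (univ.filter (fun τ : Fin q → Fin n => ∀ a, τ a ∈ S)).card
      + (univ.filter (fun τ : Fin q → Fin n => ¬ ∀ a, τ a ∈ S)).card = n ^ q := by
    rw [Finset.card_filter_add_card_filter_not]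
    simp
  have h6 : ((univ.filter (fun τ : Fin q → Fin n => ¬ ∀ a, τ a ∈ S)).card : ℝ)
      = (n:ℝ)^q - (S.card:ℝ)^q := by
    have : (((univ.filter (fun τ : Fin q → Fin n => ∀ a, τ a ∈ S)).card : ℕ) : ℝ)
      + ((univ.filter (fun τ : Fin q → Fin n => ¬ ∀ a, τ a ∈ S)).card : ℝ) = (n:ℝ) ^ q := by
      exact_mod_cast h5
    rw [h4] at this
    push_cast at this
    linarith
  rw [Finset.sum_ite, Finset.sum_const, Finset.sum_const, h4]
  rw [nsmul_eq_mul, nsmul_eq_mul, h6]
  push_cast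
  ring

lemma conf_count (N q n : ℕ) (i j : Fin N) (hij : i ≠ j) (a b a' b' : Fin q) (hab : a ≠ b) :
    (univ.filter (fun ω : Fin N → Fin q → Fin n => ω i a = ω j a' ∧ ω i b = ω j b')).card * n^2
      ≤ (n^q)^N := by
  have h := Finset.card_le_card_of_injOn
    (s := (univ.filter (fun ω : Fin N → Fin q → Fin n => ω i a = ω j a' ∧ ω i b = ω j b')) ×ˢ
      (univ : Finset (Fin n × Fin n)))
    (t := (univ : Finset (Fin N → Fin q → Fin n)))
    (fun p => Function.update p.1 i (Function.update (Function.update (p.1 i) a p.2.1) b p.2.2))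
    (by intro x _; simp) (by
      rintro ⟨ω, x, y⟩ h1 ⟨ω', x', y'⟩ h2 h3
      simp only [coe_product, coe_filter, mem_univ, true_and, Set.mem_prod, Set.mem_ofPred_eq,
        coe_univ, Set.mem_univ, and_true] at h1 h2
      simp only at h3
      have hk : ∀ k, k ≠ i → ω k = ω' k := by
        intro k hk
        have := congrFun h3 k
        rwa [Function.update_of_ne hk, Function.update_of_ne hk] at this
      have hi := congrFun h3 i
      rw [Function.update_self, Function.update_self] at hi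
      have hy : y = y' := by
        have := congrFun hi b
        rwa [Function.update_self, Function.update_self] at this
      have hx : x = x' := by
        have := congrFun hi a
        rwa [Function.update_of_ne hab, Function.update_of_ne hab, Function.update_self,
          Function.update_self] at this
      have hω : ω = ω' := by
        funext k
        by_cases hki : k = i
        · subst hki
          funext c
          have hj := hk j (Ne.symm hij)
          by_cases hcb : c = b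
          · subst hcb
            rw [h1.2, h2.2, hj]
          · by_cases hca : c = a
            · subst hca
              rw [h1.1, h2.1, hj]
            · have := congrFun hi c
              rwa [Function.update_of_ne hcb, Function.update_of_ne hcb,
                Function.update_of_ne hca, Function.update_of_ne hca] at this
        · exact hk k hki
      rw [hω, hx, hy])
  rw [Finset.card_product] at h
  simp only [card_univ, Fintype.card_prod, Fintype.card_fin, Fintype.card_pi, prod_const] at h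
  calc _ = _ := by rw [pow_two]
    _ ≤ _ := h

lemma deg_count (N q n : ℕ) (i : Fin N) (a b : Fin q) (hab : a ≠ b) :
    (univ.filter (fun ω : Fin N → Fin q → Fin n => ω i a = ω i b)).card * n
      ≤ (n^q)^N := by
  have h := Finset.card_le_card_of_injOn
    (s := (univ.filter (fun ω : Fin N → Fin q → Fin n => ω i a = ω i b)) ×ˢ
      (univ : Finset (Fin n)))
    (t := (univ : Finset (Fin N → Fin q → Fin n)))
    (fun p => Function.update p.1 i (Function.update (p.1 i) a p.2))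
    (by intro x _; simp) (by
      rintro ⟨ω, x⟩ h1 ⟨ω', x'⟩ h2 h3
      simp only [coe_product, coe_filter, mem_univ, true_and, Set.mem_prod, Set.mem_ofPred_eq,
        coe_univ, Set.mem_univ, and_true] at h1 h2
      simp only at h3
      have hk : ∀ k, k ≠ i → ω k = ω' k := by
        intro k hk
        have := congrFun h3 k
        rwa [Function.update_of_ne hk, Function.update_of_ne hk] at this
      have hi := congrFun h3 i
      rw [Function.update_self, Function.update_self] at hi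
      have hx : x = x' := by
        have := congrFun hi a
        rwa [Function.update_self, Function.update_self] at this
      have hc : ∀ c, c ≠ a → ω i c = ω' i c := by
        intro c hca
        have := congrFun hi c
        rwa [Function.update_of_ne hca, Function.update_of_ne hca] at this
      have hω : ω = ω' := by
        funext k
        by_cases hki : k = i
        · subst hki
          funext c
          by_cases hca : c = a
          · subst hca
            rw [h1, h2, hc b (Ne.symm hab)]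
          · exact hc c hca
        · exact hk k hki
      rw [hω, hx])
  rw [Finset.card_product] at h
  simp only [card_univ, Fintype.card_fin, Fintype.card_pi, prod_const] at h
  exact h


/-- number of coincidences between two different tuples -/
def conf {N q n : ℕ} (ω : Fin N → Fin q → Fin n) : Finset (Fin N × Fin N × Fin q × Fin q × Fin q × Fin q) :=
  univ.filter (fun p => p.1 ≠ p.2.1 ∧ p.2.2.1 ≠ p.2.2.2.1 ∧
    ω p.1 p.2.2.1 = ω p.2.1 p.2.2.2.2.1 ∧ ω p.1 p.2.2.2.1 = ω p.2.1 p.2.2.2.2.2)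

/-- number of coincidences inside a tuple -/
def dege {N q n : ℕ} (ω : Fin N → Fin q → Fin n) : Finset (Fin N × Fin q × Fin q) :=
  univ.filter (fun p => p.2.1 ≠ p.2.2 ∧ ω p.1 p.2.1 = ω p.1 p.2.2)

lemma sum_conf (N q n : ℕ) (hn : 0 < n) :
    ∑ ω : Fin N → Fin q → Fin n, ((conf ω).card : ℝ) ≤ (N:ℝ)^2 * (q:ℝ)^4 * (((n:ℝ)^q)^N / (n:ℝ)^2) := by
  have hn' : (0:ℝ) < n := by exact_mod_cast hn
  have h1 : ∀ ω : Fin N → Fin q → Fin n, ((conf ω).card : ℝ) =
      ∑ p : Fin N × Fin N × Fin q × Fin q × Fin q × Fin q, (if p.1 ≠ p.2.1 ∧ p.2.2.1 ≠ p.2.2.2.1 ∧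
    ω p.1 p.2.2.1 = ω p.2.1 p.2.2.2.2.1 ∧ ω p.1 p.2.2.2.1 = ω p.2.1 p.2.2.2.2.2 then (1:ℝ) else 0) := by
    intro ω
    rw [conf, Finset.card_filter]
    push_cast
    rfl
  simp_rw [h1]
  rw [Finset.sum_comm]
  have h2 : ∀ p ∈ (univ : Finset (Fin N × Fin N × Fin q × Fin q × Fin q × Fin q)),
      (∑ ω : Fin N → Fin q → Fin n, (if p.1 ≠ p.2.1 ∧ p.2.2.1 ≠ p.2.2.2.1 ∧
    ω p.1 p.2.2.1 = ω p.2.1 p.2.2.2.2.1 ∧ ω p.1 p.2.2.2.1 = ω p.2.1 p.2.2.2.2.2 then (1:ℝ) else 0))
      ≤ ((n:ℝ)^q)^N / (n:ℝ)^2 := by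
    rintro ⟨i, j, a, b, a', b'⟩ -
    simp only
    by_cases h : i ≠ j ∧ a ≠ b
    · have h3 := conf_count N q n i j h.1 a b a' b' h.2
      have h4 : (∑ ω : Fin N → Fin q → Fin n, (if i ≠ j ∧ a ≠ b ∧ ω i a = ω j a' ∧ ω i b = ω j b'
          then (1:ℝ) else 0)) =
          ((univ.filter (fun ω : Fin N → Fin q → Fin n => ω i a = ω j a' ∧ ω i b = ω j b')).card : ℝ) := by
        rw [Finset.card_filter]
        push_cast
        apply Finset.sum_congr rfl
        intro ω _
        simp [h.1, h.2]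
      rw [h4, le_div_iff₀ (by positivity)]
      exact_mod_cast h3
    · have h4 : (∑ ω : Fin N → Fin q → Fin n, (if i ≠ j ∧ a ≠ b ∧ ω i a = ω j a' ∧ ω i b = ω j b'
          then (1:ℝ) else 0)) = 0 := by
        apply Finset.sum_eq_zero
        intro ω _
        rw [if_neg]
        rintro ⟨h5, h6, _⟩
        exact h ⟨h5, h6⟩
      rw [h4]
      positivity
  refine (Finset.sum_le_sum h2).trans ?_
  rw [Finset.sum_const, nsmul_eq_mul]
  apply le_of_eq
  simp only [card_univ, Fintype.card_prod, Fintype.card_fin]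
  push_cast
  ring

lemma sum_dege (N q n : ℕ) (hn : 0 < n) :
    ∑ ω : Fin N → Fin q → Fin n, ((dege ω).card : ℝ) ≤ (N:ℝ) * (q:ℝ)^2 * (((n:ℝ)^q)^N / (n:ℝ)) := by
  have hn' : (0:ℝ) < n := by exact_mod_cast hn
  have h1 : ∀ ω : Fin N → Fin q → Fin n, ((dege ω).card : ℝ) =
      ∑ p : Fin N × Fin q × Fin q, (if p.2.1 ≠ p.2.2 ∧ ω p.1 p.2.1 = ω p.1 p.2.2 then (1:ℝ) else 0) := by
    intro ω
    rw [dege, Finset.card_filter]
    push_cast
    rfl
  simp_rw [h1]
  rw [Finset.sum_comm]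
  have h2 : ∀ p ∈ (univ : Finset (Fin N × Fin q × Fin q)),
      (∑ ω : Fin N → Fin q → Fin n, (if p.2.1 ≠ p.2.2 ∧ ω p.1 p.2.1 = ω p.1 p.2.2 then (1:ℝ) else 0))
      ≤ ((n:ℝ)^q)^N / (n:ℝ) := by
    rintro ⟨i, a, b⟩ -
    simp only
    by_cases h : a ≠ b
    · have h3 := deg_count N q n i a b h
      have h4 : (∑ ω : Fin N → Fin q → Fin n, (if a ≠ b ∧ ω i a = ω i b
          then (1:ℝ) else 0)) =
          ((univ.filter (fun ω : Fin N → Fin q → Fin n => ω i a = ω i b)).card : ℝ) := by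
        rw [Finset.card_filter]
        push_cast
        apply Finset.sum_congr rfl
        intro ω _
        simp [h]
      rw [h4, le_div_iff₀ (by positivity)]
      exact_mod_cast h3
    · have h4 : (∑ ω : Fin N → Fin q → Fin n, (if a ≠ b ∧ ω i a = ω i b
          then (1:ℝ) else 0)) = 0 := by
        apply Finset.sum_eq_zero
        intro ω _
        rw [if_neg]
        rintro ⟨h5, _⟩
        exact h h5
      rw [h4]
      positivity
  refine (Finset.sum_le_sum h2).trans ?_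
  rw [Finset.sum_const, nsmul_eq_mul]
  apply le_of_eq
  simp only [card_univ, Fintype.card_prod, Fintype.card_fin]
  push_cast
  ring

lemma choose_bd (m s : ℕ) : ((m * s).choose s : ℝ) ≤ (Real.exp 1 * m)^s := by
  have h1 : ((m*s).choose s : ℝ) ≤ ((m*s : ℕ) : ℝ)^s / (s.factorial : ℝ) := Nat.choose_le_pow_div s (m*s)
  have h2 : ((s:ℝ))^s / (s.factorial : ℝ) ≤ Real.exp s := Real.pow_div_factorial_le_exp (s:ℝ) (by positivity) s
  calc ((m * s).choose s : ℝ) ≤ ((m*s : ℕ) : ℝ)^s / (s.factorial : ℝ) := h1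
    _ = (m:ℝ)^s * ((s:ℝ)^s / (s.factorial : ℝ)) := by push_cast; rw [mul_pow]; ring
    _ ≤ (m:ℝ)^s * Real.exp s := by gcongr
    _ = (Real.exp 1 * m)^s := by
      rw [mul_pow, ← Real.exp_nat_mul, mul_one, mul_comm]

lemma exists_good (q m d D s : ℕ) (hq : 1 ≤ q) (hm : 1 ≤ m) (hD : 1 ≤ D) (hs : 2 ≤ s)
    (h1 : Real.exp 1 * m * 2^d * Real.exp (-((D:ℝ) / (2 * (m:ℝ)^(q-1)))) ≤ Real.exp (-1))
    (h2 : 64 * D^2 * q^4 < m * s) :
    ∃ ω : Fin (D * (m * s)) → Fin q → Fin (m * s),
      (∀ S : Finset (Fin (m*s)), S.card = s → d * s < #{i | ∀ a, ω i a ∈ S}) ∧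
      8 * (conf ω).card < m * s ∧ 8 * (dege ω).card < m * s := by
  set n := m * s with hn
  set N := D * n with hN
  have hn0 : 0 < n := by positivity
  have hn' : (0:ℝ) < n := by exact_mod_cast hn0
  have hm' : (0:ℝ) < m := by exact_mod_cast hm
  have hs' : (0:ℝ) < s := by positivity
  -- total weight
  have hΩ : (∑ _ω : Fin N → Fin q → Fin n, (1:ℝ)) = ((n:ℝ)^q)^N := by
    simp
  have hpos : (0:ℝ) < ((n:ℝ)^q)^N := by positivity
  have hA : ∑ ω : Fin N → Fin q → Fin n, (∑ S ∈ (univ : Finset (Fin n)).powersetCard s,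
      (2:ℝ)^(d*s) * (1/2:ℝ)^(#{i | ∀ a, ω i a ∈ S})) ≤ 1/4 * ((n:ℝ)^q)^N := by
    rw [Finset.sum_comm]
    have h3 : ∀ S ∈ (univ : Finset (Fin n)).powersetCard s,
        ∑ ω : Fin N → Fin q → Fin n, (2:ℝ)^(d*s) * (1/2:ℝ)^(#{i | ∀ a, ω i a ∈ S}) =
        (2:ℝ)^(d*s) * ((n:ℝ)^q - (s:ℝ)^q/2)^N := by
      intro S hS
      rw [Finset.mem_powersetCard] at hS
      rw [← Finset.mul_sum, sum_half, hS.2]
    rw [Finset.sum_congr rfl h3, Finset.sum_const, Finset.card_powersetCard, nsmul_eq_mul,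
      Finset.card_univ, Fintype.card_fin]
    have h4 : ((n:ℝ)^q - (s:ℝ)^q/2) = (n:ℝ)^q * (1 - 1/(2 * (m:ℝ)^q)) := by
      rw [hn]; push_cast; rw [mul_pow]; field_simp
    have h5 : (1 - 1/(2 * (m:ℝ)^q)) ≤ Real.exp (-(1/(2 * (m:ℝ)^q))) := by
      have := Real.add_one_le_exp (-(1/(2 * (m:ℝ)^q)))
      linarith
    have h6 : 0 ≤ (1 - 1/(2 * (m:ℝ)^q)) := by
      have : (1:ℝ) ≤ (m:ℝ)^q := one_le_pow₀ (by exact_mod_cast hm)
      have : 1/(2 * (m:ℝ)^q) ≤ 1 := by
        rw [div_le_one (by positivity)]; linarith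
      linarith
    have h7 : (1 - 1/(2 * (m:ℝ)^q))^N ≤ (Real.exp (-((D:ℝ) / (2 * (m:ℝ)^(q-1)))))^s := by
      calc (1 - 1/(2 * (m:ℝ)^q))^N ≤ (Real.exp (-(1/(2 * (m:ℝ)^q))))^N := pow_le_pow_left₀ h6 h5 N
        _ = _ := by
          rw [← Real.exp_nat_mul, ← Real.exp_nat_mul]
          congr 1
          have : (m:ℝ)^q = (m:ℝ)^(q-1) * m := by rw [← pow_succ]; congr 1; omega
          rw [this, hN, hn]
          push_cast
          field_simp
    have h8 := choose_bd m s
    rw [← hn] at h8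
    have h9 : (n.choose s : ℝ) * ((2:ℝ)^(d*s) * ((n:ℝ)^q - (s:ℝ)^q/2)^N) ≤
        (Real.exp (-1))^s * ((n:ℝ)^q)^N := by
      rw [h4, mul_pow]
      calc (n.choose s : ℝ) * ((2:ℝ)^(d*s) * (((n:ℝ)^q)^N * (1 - 1/(2 * (m:ℝ)^q))^N))
          ≤ (Real.exp 1 * m)^s * ((2:ℝ)^(d*s) * (((n:ℝ)^q)^N *
            (Real.exp (-((D:ℝ) / (2 * (m:ℝ)^(q-1)))))^s)) := by gcongr
        _ = (Real.exp 1 * m * 2^d * Real.exp (-((D:ℝ) / (2 * (m:ℝ)^(q-1)))))^s * ((n:ℝ)^q)^N := by
          rw [pow_mul, mul_pow, mul_pow, mul_pow, mul_pow]; ring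
        _ ≤ _ := by gcongr
    refine h9.trans ?_
    have h10 : (Real.exp (-1))^s ≤ 1/4 := by
      have h11 : Real.exp (-1) ≤ 1/2 := by
        rw [Real.exp_neg, one_div]
        apply inv_anti₀ (by norm_num)
        have := Real.add_one_le_exp (1:ℝ)
        linarith
      calc (Real.exp (-1))^s ≤ (1/2:ℝ)^s := by
            apply pow_le_pow_left₀ (Real.exp_pos _).le h11
        _ ≤ (1/2:ℝ)^2 := pow_le_pow_of_le_one (by norm_num) (by norm_num) hs
        _ = 1/4 := by norm_num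
    gcongr
  have hB := sum_conf N q n hn0
  have hC := sum_dege N q n hn0
  have hB' : ∑ ω : Fin N → Fin q → Fin n, (8 / (n:ℝ)) * ((conf ω).card : ℝ) ≤ 1/8 * ((n:ℝ)^q)^N := by
    rw [← Finset.mul_sum]
    calc (8 / (n:ℝ)) * ∑ ω : Fin N → Fin q → Fin n, ((conf ω).card : ℝ)
        ≤ (8 / (n:ℝ)) * ((N:ℝ)^2 * (q:ℝ)^4 * (((n:ℝ)^q)^N / (n:ℝ)^2)) := by gcongr
      _ = (8 * (D:ℝ)^2 * (q:ℝ)^4 / n) * ((n:ℝ)^q)^N := by
        rw [hN]; push_cast; field_simp
      _ ≤ _ := by
        apply mul_le_mul_of_nonneg_right _ hpos.le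
        rw [div_le_iff₀ hn']
        have : (64 * (D:ℝ)^2 * (q:ℝ)^4) < n := by exact_mod_cast h2
        linarith
  have hC' : ∑ ω : Fin N → Fin q → Fin n, (8 / (n:ℝ)) * ((dege ω).card : ℝ) ≤ 1/8 * ((n:ℝ)^q)^N := by
    rw [← Finset.mul_sum]
    calc (8 / (n:ℝ)) * ∑ ω : Fin N → Fin q → Fin n, ((dege ω).card : ℝ)
        ≤ (8 / (n:ℝ)) * ((N:ℝ) * (q:ℝ)^2 * (((n:ℝ)^q)^N / (n:ℝ))) := by gcongr
      _ = (8 * (D:ℝ) * (q:ℝ)^2 / n) * ((n:ℝ)^q)^N := by
        rw [hN]; push_cast; field_simp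
      _ ≤ _ := by
        apply mul_le_mul_of_nonneg_right _ hpos.le
        rw [div_le_iff₀ hn']
        have h3 : (64 * (D:ℝ)^2 * (q:ℝ)^4) < n := by exact_mod_cast h2
        have h4 : D * q^2 ≤ D^2 * q^4 := by
          calc D * q^2 ≤ (D * q^2) * (D * q^2) := Nat.le_mul_of_pos_left _ (by positivity)
            _ = _ := by ring
        have h5 : (D:ℝ) * (q:ℝ)^2 ≤ (D:ℝ)^2 * (q:ℝ)^4 := by exact_mod_cast h4
        linarith
  have hW : ∑ ω : Fin N → Fin q → Fin n, ((∑ S ∈ (univ : Finset (Fin n)).powersetCard s,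
      (2:ℝ)^(d*s) * (1/2:ℝ)^(#{i | ∀ a, ω i a ∈ S})) + (8 / (n:ℝ)) * ((conf ω).card : ℝ)
      + (8 / (n:ℝ)) * ((dege ω).card : ℝ)) < ∑ _ω : Fin N → Fin q → Fin n, (1:ℝ) := by
    rw [hΩ, Finset.sum_add_distrib, Finset.sum_add_distrib]
    linarith
  obtain ⟨ω, _, hω⟩ := Finset.exists_lt_of_sum_lt hW
  have hnn : 0 ≤ ∑ S ∈ (univ : Finset (Fin n)).powersetCard s,
      (2:ℝ)^(d*s) * (1/2:ℝ)^(#{i | ∀ a, ω i a ∈ S}) := Finset.sum_nonneg (fun S _ => by positivity)
  have hn1 : 0 ≤ (8 / (n:ℝ)) * ((conf ω).card : ℝ) := by positivity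
  have hn2 : 0 ≤ (8 / (n:ℝ)) * ((dege ω).card : ℝ) := by positivity
  refine ⟨ω, ?_, ?_, ?_⟩
  · intro S hS
    by_contra hcon
    push Not at hcon
    have h3 : (2:ℝ)^(d*s) * (1/2:ℝ)^(#{i | ∀ a, ω i a ∈ S}) ≤
        ∑ S ∈ (univ : Finset (Fin n)).powersetCard s,
      (2:ℝ)^(d*s) * (1/2:ℝ)^(#{i | ∀ a, ω i a ∈ S}) :=
      Finset.single_le_sum (f := fun S => (2:ℝ)^(d*s) * (1/2:ℝ)^(#{i | ∀ a, ω i a ∈ S}))
        (fun S _ => by positivity) (by
        rw [Finset.mem_powersetCard]; exact ⟨Finset.subset_univ _, hS⟩)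
    have h4 : (1:ℝ) ≤ (2:ℝ)^(d*s) * (1/2:ℝ)^(#{i | ∀ a, ω i a ∈ S}) := by
      rw [one_div, inv_pow, ← div_eq_mul_inv, le_div_iff₀ (by positivity), one_mul]
      exact pow_le_pow_right₀ (by norm_num) hcon
    linarith
  · have h3 : (8 / (n:ℝ)) * ((conf ω).card : ℝ) < 1 := by linarith
    rw [div_mul_eq_mul_div, div_lt_one hn'] at h3
    exact_mod_cast h3
  · have h3 : (8 / (n:ℝ)) * ((dege ω).card : ℝ) < 1 := by linarith
    rw [div_mul_eq_mul_div, div_lt_one hn'] at h3
    exact_mod_cast h3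


/-- the edges: images of the tuples that stay inside `V` -/
def edges {N q n : ℕ} (ω : Fin N → Fin q → Fin n) (V : Finset (Fin n)) : Finset (Finset (Fin n)) :=
  (univ.filter (fun i => ∀ a, ω i a ∈ V)).image (fun i => univ.image (ω i))

/-- from a good family of tuples to a good hypergraph -/
lemma hypergraph_of_good (q m d D s n : ℕ) (hn : n = m * s) (hn0 : 0 < n) (hq : 2 ≤ q) (hD : 1 ≤ D)
    (ω : Fin (D * n) → Fin q → Fin n)
    (hω1 : ∀ S : Finset (Fin n), S.card = s → d * s < #{i | ∀ a, ω i a ∈ S})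
    (hω2 : 8 * (conf ω).card < n) (hω3 : 8 * (dege ω).card < n) :
    ∃ E : Finset (Finset (Fin n)), (∀ e ∈ E, e.card = q) ∧
      (∀ e ∈ E, ∀ f ∈ E, e ≠ f → (e ∩ f).card ≤ 1) ∧
      (∀ v, (E.filter (fun e => v ∈ e)).card ≤ 4 * q * D) ∧
      ∀ k : ℕ, 2 * k ≤ m → ∀ c : Fin n → Fin k,
        ¬ ∀ v, (E.filter (fun e => v ∈ e ∧ ∀ u ∈ e, c u = c v)).card ≤ d := by
  -- removed vertices
  set B1 : Finset (Fin n) := univ.filter (fun v => 4 * q * D < #{i | ∃ a, ω i a = v}) with hB1
  set B2 : Finset (Fin n) := (conf ω).image (fun p => ω p.1 p.2.2.1) with hB2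
  set B3 : Finset (Fin n) := (dege ω).image (fun p => ω p.1 p.2.1) with hB3
  set V : Finset (Fin n) := univ \ (B1 ∪ B2 ∪ B3) with hV
  have hmem : ∀ v, v ∈ V ↔ v ∉ B1 ∧ v ∉ B2 ∧ v ∉ B3 := by
    intro v
    simp only [hV, Finset.mem_sdiff, Finset.mem_univ, true_and, Finset.mem_union, not_or, and_assoc]
  -- size of B1
  have hc1 : 4 * B1.card ≤ n := by
    have h3 : ∑ v : Fin n, #{i | ∃ a, ω i a = v} ≤ q * (D * n) := by
      have h4 : ∀ v : Fin n, #{i | ∃ a, ω i a = v} ≤ ∑ i : Fin (D*n), ∑ a : Fin q, if ω i a = v then 1 else 0 := by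
        intro v
        rw [Finset.card_filter]
        apply Finset.sum_le_sum
        intro i _
        split_ifs with h
        · obtain ⟨a, ha⟩ := h
          calc 1 = if ω i a = v then 1 else 0 := by rw [if_pos ha]
            _ ≤ _ := Finset.single_le_sum (f := fun a => if ω i a = v then 1 else 0)
              (fun a _ => by positivity) (Finset.mem_univ a)
        · positivity
      calc ∑ v : Fin n, #{i | ∃ a, ω i a = v}
          ≤ ∑ v : Fin n, ∑ i : Fin (D*n), ∑ a : Fin q, (if ω i a = v then 1 else 0) :=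
            Finset.sum_le_sum (fun v _ => h4 v)
        _ = ∑ i : Fin (D*n), ∑ a : Fin q, ∑ v : Fin n, (if ω i a = v then 1 else 0) := by
            rw [Finset.sum_comm]
            apply Finset.sum_congr rfl
            intro i _
            rw [Finset.sum_comm]
        _ = q * (D * n) := by simp [mul_comm]
    have h5 : B1.card * (4 * q * D) ≤ q * (D * n) := by
      calc B1.card * (4 * q * D) = ∑ _v ∈ B1, (4 * q * D) := by rw [Finset.sum_const, smul_eq_mul]
        _ ≤ ∑ v ∈ B1, #{i | ∃ a, ω i a = v} := by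
          apply Finset.sum_le_sum
          intro v hv
          rw [hB1, Finset.mem_filter] at hv
          exact hv.2.le
        _ ≤ ∑ v : Fin n, #{i | ∃ a, ω i a = v} := Finset.sum_le_sum_of_subset (Finset.subset_univ _)
        _ ≤ _ := h3
    have h6 : (4 * B1.card) * (q * D) ≤ n * (q * D) := by nlinarith
    exact Nat.le_of_mul_le_mul_right h6 (by positivity)
  have hc2 : 8 * B2.card ≤ n := by
    have : B2.card ≤ (conf ω).card := Finset.card_image_le
    omega
  have hc3 : 8 * B3.card ≤ n := by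
    have : B3.card ≤ (dege ω).card := Finset.card_image_le
    omega
  have hcV : n ≤ 2 * V.card := by
    have h3 : (B1 ∪ B2 ∪ B3).card ≤ B1.card + B2.card + B3.card :=
      (Finset.card_union_le _ _).trans (Nat.add_le_add_right (Finset.card_union_le _ _) _)
    have h4 : V.card = n - (B1 ∪ B2 ∪ B3).card := by
      rw [hV, Finset.card_sdiff_of_subset (Finset.subset_univ _), Finset.card_univ, Fintype.card_fin]
    omega
  -- properties of tuples inside V
  have hinj : ∀ i, (∀ a, ω i a ∈ V) → Function.Injective (ω i) := by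
    intro i hi a b hab
    by_contra hne
    have h3 : (i, a, b) ∈ dege ω := by
      rw [dege, Finset.mem_filter]
      exact ⟨Finset.mem_univ _, hne, hab⟩
    have h4 : ω i a ∈ B3 := by
      rw [hB3, Finset.mem_image]
      exact ⟨(i,a,b), h3, rfl⟩
    exact ((hmem _).1 (hi a)).2.2 h4
  have hlin : ∀ i j, i ≠ j → (∀ a, ω i a ∈ V) →
      ((univ.image (ω i)) ∩ (univ.image (ω j))).card ≤ 1 := by
    intro i j hij hi
    by_contra hcon
    push Not at hcon
    obtain ⟨x, hx, y, hy, hxy⟩ := Finset.one_lt_card.1 hcon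
    rw [Finset.mem_inter, Finset.mem_image, Finset.mem_image] at hx hy
    obtain ⟨⟨a, _, ha⟩, ⟨a', _, ha'⟩⟩ := hx
    obtain ⟨⟨b, _, hb⟩, ⟨b', _, hb'⟩⟩ := hy
    have hab : a ≠ b := by
      rintro rfl
      exact hxy (ha.symm.trans hb)
    have h3 : (i, j, a, b, a', b') ∈ conf ω := by
      rw [conf, Finset.mem_filter]
      exact ⟨Finset.mem_univ _, hij, hab, ha.trans ha'.symm, hb.trans hb'.symm⟩
    have h4 : ω i a ∈ B2 := by
      rw [hB2, Finset.mem_image]
      exact ⟨_, h3, rfl⟩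
    exact ((hmem _).1 (hi a)).2.1 h4
  have hEinj : ∀ i j, (∀ a, ω i a ∈ V) → univ.image (ω i) = univ.image (ω j) → i = j := by
    intro i j hi he
    by_contra hij
    have h3 := hlin i j hij hi
    rw [← he, Finset.inter_self, Finset.card_image_of_injective _ (hinj i hi), Finset.card_univ,
      Fintype.card_fin] at h3
    omega
  refine ⟨edges ω V, ?_, ?_, ?_, ?_⟩
  · intro e he
    rw [edges, Finset.mem_image] at he
    obtain ⟨i, hi, rfl⟩ := he
    rw [Finset.mem_filter] at hi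
    rw [Finset.card_image_of_injective _ (hinj i hi.2), Finset.card_univ, Fintype.card_fin]
  · intro e he f hf hef
    rw [edges, Finset.mem_image] at he hf
    obtain ⟨i, hi, rfl⟩ := he
    obtain ⟨j, hj, rfl⟩ := hf
    rw [Finset.mem_filter] at hi hj
    apply hlin i j _ hi.2
    rintro rfl
    exact hef rfl
  · intro v
    by_cases hv : v ∈ V
    · have h3 : ((edges ω V).filter (fun e => v ∈ e)) ⊆
          ((univ.filter (fun i => ∃ a, ω i a = v)).image (fun i => univ.image (ω i))) := by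
        intro e he
        rw [Finset.mem_filter, edges, Finset.mem_image] at he
        obtain ⟨⟨i, hi, rfl⟩, hve⟩ := he
        rw [Finset.mem_image] at hve
        obtain ⟨a, _, ha⟩ := hve
        rw [Finset.mem_image]
        exact ⟨i, by rw [Finset.mem_filter]; exact ⟨Finset.mem_univ _, a, ha⟩, rfl⟩
      have h4 : #{i | ∃ a, ω i a = v} ≤ 4 * q * D := by
        have h5 := ((hmem v).1 hv).1
        rw [hB1, Finset.mem_filter] at h5
        push Not at h5
        exact h5 (Finset.mem_univ _)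
      exact (Finset.card_le_card h3).trans (Finset.card_image_le.trans h4)
    · have h3 : ((edges ω V).filter (fun e => v ∈ e)) = ∅ := by
        rw [Finset.filter_eq_empty_iff]
        intro e he hve
        rw [edges, Finset.mem_image] at he
        obtain ⟨i, hi, rfl⟩ := he
        rw [Finset.mem_filter] at hi
        rw [Finset.mem_image] at hve
        obtain ⟨a, _, ha⟩ := hve
        exact hv (ha ▸ hi.2 a)
      rw [h3]; simp
  · intro k hk c hc
    -- a colour class with at least `s` vertices of V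
    have hex : ∃ x : Fin k, s ≤ (V.filter (fun v => c v = x)).card := by
      by_contra hcon
      push Not at hcon
      have h3 : V.card = ∑ x : Fin k, (V.filter (fun v => c v = x)).card :=
        Finset.card_eq_sum_card_fiberwise (fun v _ => Finset.mem_coe.2 (Finset.mem_univ _))
      have h4 : ∑ x : Fin k, ((V.filter (fun v => c v = x)).card + 1) ≤ ∑ _x : Fin k, s := by
        apply Finset.sum_le_sum
        intro x _
        exact hcon x
      rw [Finset.sum_add_distrib, ← h3, Finset.sum_const, Finset.sum_const, Finset.card_univ,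
        Fintype.card_fin, smul_eq_mul, smul_eq_mul, mul_one] at h4
      have h5 : 2 * k * s ≤ m * s := Nat.mul_le_mul_right s hk
      have h6 : 2 * V.card + 2 * k ≤ n := by
        have : 2 * (k * s) ≤ m * s := by linarith
        omega
      have h7 : k = 0 := by omega
      subst h7
      exact (c ⟨0, hn0⟩).elim0
    obtain ⟨x, hx⟩ := hex
    obtain ⟨S, hS, hScard⟩ := Finset.exists_subset_card_eq hx
    have h3 := hω1 S hScard
    have hSV : ∀ v ∈ S, v ∈ V ∧ c v = x := by
      intro v hv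
      have := hS hv
      rwa [Finset.mem_filter] at this
    -- count
    have h4 : #{i | ∀ a, ω i a ∈ S} ≤ ∑ v ∈ S, ((edges ω V).filter (fun e => v ∈ e ∧ ∀ u ∈ e, c u = c v)).card := by
      have h5 : ((univ.filter (fun i => ∀ a, ω i a ∈ S)).image (fun i => univ.image (ω i))) ⊆
          S.biUnion (fun v => (edges ω V).filter (fun e => v ∈ e ∧ ∀ u ∈ e, c u = c v)) := by
        intro e he
        rw [Finset.mem_image] at he
        obtain ⟨i, hi, rfl⟩ := he
        rw [Finset.mem_filter] at hi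
        have hi2 := hi.2
        have a0 : Fin q := ⟨0, by omega⟩
        rw [Finset.mem_biUnion]
        refine ⟨ω i a0, hi2 a0, ?_⟩
        rw [Finset.mem_filter]
        refine ⟨?_, ?_, ?_⟩
        · rw [edges, Finset.mem_image]
          exact ⟨i, by rw [Finset.mem_filter]; exact ⟨Finset.mem_univ _, fun a => (hSV _ (hi2 a)).1⟩, rfl⟩
        · rw [Finset.mem_image]; exact ⟨a0, Finset.mem_univ _, rfl⟩
        · intro u hu
          rw [Finset.mem_image] at hu
          obtain ⟨a, _, rfl⟩ := hu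
          rw [(hSV _ (hi2 a)).2, (hSV _ (hi2 a0)).2]
      have h6 : ((univ.filter (fun i => ∀ a, ω i a ∈ S)).image (fun i => univ.image (ω i))).card =
          #{i | ∀ a, ω i a ∈ S} := by
        apply Finset.card_image_of_injOn
        intro i hi j hj hij
        rw [Finset.mem_coe, Finset.mem_filter] at hi
        exact hEinj i j (fun a => (hSV _ (hi.2 a)).1) hij
      rw [← h6]
      exact (Finset.card_le_card h5).trans Finset.card_biUnion_le
    have h7 : ∑ v ∈ S, ((edges ω V).filter (fun e => v ∈ e ∧ ∀ u ∈ e, c u = c v)).card ≤ S.card * d := by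
      calc _ ≤ ∑ _v ∈ S, d := Finset.sum_le_sum (fun v _ => hc v)
        _ = _ := by rw [Finset.sum_const, smul_eq_mul]
    rw [hScard] at h7
    have h8 : d * s = s * d := mul_comm _ _
    omega

/-- For all parameters in the right range there is a linear `q`-uniform hypergraph. -/
lemma hypergraph (q m d D s : ℕ) (hq : 2 ≤ q) (hm : 1 ≤ m) (hD : 1 ≤ D) (hs : 2 ≤ s)
    (h1 : Real.exp 1 * m * 2^d * Real.exp (-((D:ℝ) / (2 * (m:ℝ)^(q-1)))) ≤ Real.exp (-1))
    (h2 : 64 * D^2 * q^4 < m * s) :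
    ∃ n : ℕ, 0 < n ∧ ∃ E : Finset (Finset (Fin n)), (∀ e ∈ E, e.card = q) ∧
      (∀ e ∈ E, ∀ f ∈ E, e ≠ f → (e ∩ f).card ≤ 1) ∧
      (∀ v, (E.filter (fun e => v ∈ e)).card ≤ 4 * q * D) ∧
      ∀ k : ℕ, 2 * k ≤ m → ∀ c : Fin n → Fin k,
        ¬ ∀ v, (E.filter (fun e => v ∈ e ∧ ∀ u ∈ e, c u = c v)).card ≤ d := by
  obtain ⟨ω, hω1, hω2, hω3⟩ := exists_good q m d D s (by omega) hm hD hs h1 h2
  exact ⟨m * s, by positivity, hypergraph_of_good q m d D s (m * s) rfl (by positivity) hq hD ω hω1 hω2 hω3⟩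


/-- `E` is the edge set of a linear `(r+1)`-uniform hypergraph on the vertex set `Fin n` with maximum
degree at most `Δ`. -/
def IsLinearHypergraph (r Δ n : ℕ) (E : Finset (Finset (Fin n))) : Prop :=
  (∀ e ∈ E, e.card = r + 1) ∧ (∀ e ∈ E, ∀ f ∈ E, e ≠ f → (e ∩ f).card ≤ 1) ∧
    ∀ v, (E.filter (fun e => v ∈ e)).card ≤ Δ

/-- The hypergraph with edge set `E` has a `d`-defective colouring with `k` colours: every vertex lies in
at most `d` edges all of whose vertices have the same colour. -/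
def HasDefectiveColouring {n : ℕ} (E : Finset (Finset (Fin n))) (d k : ℕ) : Prop :=
  ∃ c : Fin n → Fin k, ∀ v, (E.filter (fun e => v ∈ e ∧ ∀ u ∈ e, c u = c v)).card ≤ d

lemma strong (r : ℕ) (hr : 2 ≤ r) : ∃ c : ℝ, 0 < c ∧ ∀ Δ d : ℕ, 2 ≤ Δ → (d:ℝ) ≤ c * Real.log Δ →
    ∃ (n : ℕ) (E : Finset (Finset (Fin n))), IsLinearHypergraph r Δ n E ∧
      ∀ k : ℕ, (k:ℝ) ≤ c * ((Δ:ℝ) / Real.log Δ) ^ ((1:ℝ) / r) → ¬ HasDefectiveColouring E d k := by
  have hr0 : (0:ℝ) < r := by positivity
  have hr0' : (r:ℝ) ≠ 0 := hr0.ne'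
  set A : ℝ := 1 / (64 * ((r:ℝ)+1)) with hA
  have hA0 : 0 < A := by positivity
  have hr2 : (2:ℝ) ≤ r := by exact_mod_cast hr
  have hA1 : A ≤ 1/64 := by
    rw [hA]
    apply one_div_le_one_div_of_le (by norm_num)
    linarith
  set α : ℝ := A ^ ((1:ℝ)/r) with hα
  have hα0 : 0 < α := Real.rpow_pos_of_pos hA0 _
  have hα1 : α ≤ 1 := Real.rpow_le_one hA0.le (by linarith) (by positivity)
  have hαr : α ^ r = A := by
    rw [hα, ← Real.rpow_natCast, ← Real.rpow_mul hA0.le, one_div_mul_cancel hr0', Real.rpow_one]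
  refine ⟨α / 4, by positivity, ?_⟩
  intro Δ d hΔ hd
  have hΔ2 : (2:ℝ) ≤ Δ := by exact_mod_cast hΔ
  have hlog0 : 0 < Real.log Δ := Real.log_pos (by linarith)
  have hlog2 : Real.log 2 ≤ Real.log Δ := Real.log_le_log (by norm_num) hΔ2
  have hl2 := Real.log_two_gt_d9
  set Y : ℝ := (Δ:ℝ) / Real.log Δ with hY
  have hY0 : 0 < Y := by positivity
  set X : ℝ := Y ^ ((1:ℝ)/r) with hX
  have hX0 : 0 < X := Real.rpow_pos_of_pos hY0 _
  have hXr : X ^ r = Y := by
    rw [hX, ← Real.rpow_natCast, ← Real.rpow_mul hY0.le, one_div_mul_cancel hr0', Real.rpow_one]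
  by_cases hsmall : α / 4 * X < 1
  · -- trivial case: no colours at all
    refine ⟨1, ∅, ⟨by simp, by simp, by simp⟩, ?_⟩
    rintro k hk ⟨c, -⟩
    have h1 : (k:ℝ) < 1 := lt_of_le_of_lt hk hsmall
    have h2 : k = 0 := by
      have : k < 1 := by exact_mod_cast h1
      omega
    subst h2
    exact (c 0).elim0
  · push Not at hsmall
    have hαX : 4 ≤ α * X := by linarith
    have hαXr : (α * X)^r = A * Y := by rw [mul_pow, hαr, hXr]
    have hAY : 16 ≤ A * Y := by
      rw [← hαXr]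
      calc (16:ℝ) = 4^2 := by norm_num
        _ ≤ 4^r := pow_le_pow_right₀ (by norm_num) hr
        _ ≤ (α*X)^r := by gcongr
    have hΔbig : 8 * ((r:ℝ)+1) ≤ Δ := by
      have h1 : Y = Δ / Real.log Δ := hY
      have h2 : (Δ:ℝ) = Y * Real.log Δ := by rw [h1]; field_simp
      have h3 : 16 * (64 * ((r:ℝ)+1)) ≤ Y := by
        have : A * Y = Y / (64 * ((r:ℝ)+1)) := by rw [hA]; ring
        rw [this, le_div_iff₀ (by positivity)] at hAY
        exact hAY
      rw [h2]
      calc 8 * ((r:ℝ)+1) ≤ (16 * (64 * ((r:ℝ)+1))) * 0.5 := by nlinarith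
        _ ≤ Y * Real.log Δ := by
          apply mul_le_mul h3 (by linarith) (by norm_num) hY0.le
    have hΔ8 : (8:ℝ) ≤ Δ := by nlinarith
    have hlog8 : 2 ≤ Real.log Δ := by
      have h1 : Real.log 8 ≤ Real.log Δ := Real.log_le_log (by norm_num) hΔ8
      have h2 : Real.log 8 = 3 * Real.log 2 := by
        rw [show (8:ℝ) = 2^3 by norm_num, Real.log_pow]; norm_num
      linarith
    set m : ℕ := ⌊α * X⌋₊ with hm
    have hm1 : (m:ℝ) ≤ α * X := Nat.floor_le (by positivity)
    have hm2 : α * X < m + 1 := Nat.lt_floor_add_one _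
    have hm3 : 1 ≤ m := by
      have : (1:ℝ) ≤ m := by linarith
      exact_mod_cast this
    have hm0 : (0:ℝ) < m := by exact_mod_cast hm3
    have hmr : (m:ℝ)^r ≤ A * Y := by
      rw [← hαXr]; gcongr
    set D : ℕ := Δ / (4 * (r+1)) with hD
    have hD1 : 4 * (r+1) * D ≤ Δ := Nat.mul_div_le _ _
    have hD2 : Δ < 4 * (r+1) * (D + 1) := Nat.lt_mul_div_succ _ (by positivity)
    have hD3 : (Δ:ℝ) < 4 * ((r:ℝ)+1) * (D + 1) := by exact_mod_cast hD2
    have hD4 : (Δ:ℝ) / (8 * ((r:ℝ)+1)) ≤ D := by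
      rw [div_le_iff₀ (by positivity)]
      nlinarith
    have hD5 : 1 ≤ D := by
      have : (1:ℝ) ≤ (Δ:ℝ) / (8 * ((r:ℝ)+1)) := by
        rw [le_div_iff₀ (by positivity)]; linarith
      have : (1:ℝ) ≤ D := by linarith
      exact_mod_cast this
    have h1 : Real.exp 1 * m * 2^d * Real.exp (-((D:ℝ) / (2 * (m:ℝ)^((r+1)-1)))) ≤ Real.exp (-1) := by
      rw [Nat.add_sub_cancel]
      have h3 : 4 * Real.log Δ ≤ (D:ℝ) / (2 * (m:ℝ)^r) := by
        calc 4 * Real.log Δ = ((Δ:ℝ) / (8 * ((r:ℝ)+1))) / (2 * (A * Y)) := by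
              rw [hA, hY]; field_simp; norm_num
          _ ≤ (D:ℝ) / (2 * (m:ℝ)^r) := by gcongr
      have h4 : Real.log m ≤ Real.log Δ := by
        apply Real.log_le_log hm0
        calc (m:ℝ) ≤ (m:ℝ)^r := by
              apply le_self_pow₀ (by exact_mod_cast hm3) (by omega)
          _ ≤ A * Y := hmr
          _ ≤ Δ := by
            rw [hY, mul_div_assoc', div_le_iff₀ hlog0]
            nlinarith
      have h5 : (2:ℝ)^d ≤ Real.exp (Real.log Δ / 4) := by
        calc (2:ℝ)^d ≤ (Real.exp 1)^d := by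
              gcongr
              have := Real.add_one_le_exp (1:ℝ)
              linarith
          _ = Real.exp d := by rw [← Real.exp_nat_mul, mul_one]
          _ ≤ _ := by
            apply Real.exp_le_exp.2
            calc (d:ℝ) ≤ α / 4 * Real.log Δ := hd
              _ ≤ Real.log Δ / 4 := by nlinarith
      calc Real.exp 1 * m * 2^d * Real.exp (-((D:ℝ) / (2 * (m:ℝ)^r)))
          ≤ Real.exp 1 * Real.exp (Real.log Δ) * Real.exp (Real.log Δ / 4) *
              Real.exp (-(4 * Real.log Δ)) := by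
            gcongr
            calc (m:ℝ) = Real.exp (Real.log m) := (Real.exp_log hm0).symm
              _ ≤ _ := Real.exp_le_exp.2 h4
        _ = Real.exp (1 + Real.log Δ + Real.log Δ / 4 + -(4 * Real.log Δ)) := by
            rw [← Real.exp_add, ← Real.exp_add, ← Real.exp_add]
        _ ≤ Real.exp (-1) := by
            apply Real.exp_le_exp.2
            linarith
    obtain ⟨n, hn, E, hE1, hE2, hE3, hE4⟩ := hypergraph (r+1) m d D (64 * D^2 * (r+1)^4 + 2) (by omega) hm3 hD5
      (by omega) h1 (lt_of_lt_of_le (by omega : 64 * D^2 * (r+1)^4 < 1 * (64 * D^2 * (r+1)^4 + 2))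
        (Nat.mul_le_mul_right _ hm3))
    refine ⟨n, E, ⟨hE1, hE2, fun v => (hE3 v).trans hD1⟩, ?_⟩
    rintro k hk ⟨c, hc⟩
    apply hE4 k _ c hc
    have : 2 * (k:ℝ) ≤ m := by linarith
    exact_mod_cast this

/-- **Defective colouring of linear hypergraphs.** Let `r ≥ 2`.
(1) There is `c > 0` such that for all `Δ ≥ 2` and all `d ≤ c log Δ` some linear `(r+1)`-uniform hypergraph
of maximum degree at most `Δ` has no `d`-defective colouring with at most `c (Δ / log Δ)^(1/r)` colours.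
(2) For every `C` there are `Δ, d ≥ 2` and a linear `(r+1)`-uniform hypergraph of maximum degree at most `Δ`
with no `d`-defective `k`-colouring for any `k ≤ max {1, C ((Δ / log Δ) (log d / d))^(1/r)}`. -/
theorem result :
    (∀ r : ℕ, 2 ≤ r → ∃ c : ℝ, 0 < c ∧ ∀ Δ d : ℕ, 2 ≤ Δ → (d:ℝ) ≤ c * Real.log Δ →
      ∃ (n : ℕ) (E : Finset (Finset (Fin n))), IsLinearHypergraph r Δ n E ∧
        ∀ k : ℕ, (k:ℝ) ≤ c * ((Δ:ℝ) / Real.log Δ) ^ ((1:ℝ) / r) → ¬ HasDefectiveColouring E d k) ∧
    (∀ r : ℕ, 2 ≤ r → ∀ C : ℝ, ∃ Δ d : ℕ, 2 ≤ Δ ∧ 2 ≤ d ∧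
      ∃ (n : ℕ) (E : Finset (Finset (Fin n))), IsLinearHypergraph r Δ n E ∧
        ∀ k : ℕ, (k:ℝ) ≤ max 1 (C * (((Δ:ℝ) / Real.log Δ) * (Real.log d / d)) ^ ((1:ℝ) / r)) →
          ¬ HasDefectiveColouring E d k) := by
  refine ⟨strong, ?_⟩
  intro r hr C
  obtain ⟨c, hc, h⟩ := strong r hr
  have hr0 : (0:ℝ) < r := by positivity
  have hlim : Filter.Tendsto (fun x : ℝ => Real.log x / x) Filter.atTop (nhds 0) := by
    have := Real.tendsto_pow_log_div_mul_add_atTop 1 0 1 one_ne_zero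
    simpa using this
  have hlimN : Filter.Tendsto (fun x : ℕ => Real.log x / x) Filter.atTop (nhds 0) :=
    hlim.comp tendsto_natCast_atTop_atTop
  set C' : ℝ := max C 1 with hC'
  have hC'0 : 0 < C' := lt_of_lt_of_le one_pos (le_max_right _ _)
  -- choose d
  obtain ⟨d, hd1, hd2⟩ : ∃ d : ℕ, 2 ≤ d ∧ Real.log d / d < (c / C')^r := by
    have h1 := (hlimN.eventually (gt_mem_nhds (show (0:ℝ) < (c/C')^r by positivity))).and
      (Filter.eventually_ge_atTop 2)
    obtain ⟨d, hd⟩ := h1.exists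
    exact ⟨d, hd.2, hd.1⟩
  obtain ⟨Δ, hΔ1, hΔ2, hΔ3⟩ : ∃ Δ : ℕ, 2 ≤ Δ ∧ Real.log Δ / Δ < c^r ∧ d / c ≤ Real.log Δ := by
    have h1 := (hlimN.eventually (gt_mem_nhds (show (0:ℝ) < c^r by positivity))).and
      ((Filter.eventually_ge_atTop 2).and
        ((Real.tendsto_log_atTop.comp tendsto_natCast_atTop_atTop).eventually_ge_atTop (d / c)))
    obtain ⟨Δ, hd⟩ := h1.exists
    exact ⟨Δ, hd.2.1, hd.1, hd.2.2⟩
  have hΔr : (2:ℝ) ≤ Δ := by exact_mod_cast hΔ1
  have hdr : (2:ℝ) ≤ d := by exact_mod_cast hd1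
  have hlogΔ : 0 < Real.log Δ := Real.log_pos (by linarith)
  have hlogd : 0 < Real.log d := Real.log_pos (by linarith)
  refine ⟨Δ, d, hΔ1, hd1, ?_⟩
  obtain ⟨n, E, hE, hk⟩ := h Δ d hΔ1 (by rw [div_le_iff₀ hc] at hΔ3; linarith)
  refine ⟨n, E, hE, ?_⟩
  intro k hk1
  apply hk k
  refine hk1.trans ?_
  have hY : 0 < (Δ:ℝ) / Real.log Δ := by positivity
  have key : ∀ y : ℝ, 0 < y → (y^r) ^ ((1:ℝ)/r) = y := by
    intro y hy
    rw [← Real.rpow_natCast, ← Real.rpow_mul hy.le, mul_one_div_cancel hr0.ne', Real.rpow_one]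
  apply max_le
  · have h1 : (1/c)^r ≤ (Δ:ℝ) / Real.log Δ := by
      rw [one_div, inv_pow, inv_le_comm₀ (by positivity) hY, inv_div]
      exact hΔ2.le
    have h2 : 1/c ≤ ((Δ:ℝ) / Real.log Δ) ^ ((1:ℝ)/r) := by
      calc 1/c = ((1/c)^r) ^ ((1:ℝ)/r) := (key _ (by positivity)).symm
        _ ≤ _ := Real.rpow_le_rpow (by positivity) h1 (by positivity)
    calc (1:ℝ) = c * (1/c) := by field_simp
      _ ≤ _ := by gcongr
  · have h1 : (Real.log d / d) ^ ((1:ℝ)/r) ≤ c / C' := by
      calc (Real.log d / d) ^ ((1:ℝ)/r) ≤ ((c/C')^r) ^ ((1:ℝ)/r) :=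
            Real.rpow_le_rpow (by positivity) hd2.le (by positivity)
        _ = _ := key _ (by positivity)
    rw [Real.mul_rpow hY.le (by positivity)]
    have h2 : 0 ≤ ((Δ:ℝ) / Real.log Δ) ^ ((1:ℝ)/r) := by positivity
    have h3 : 0 ≤ (Real.log d / d) ^ ((1:ℝ)/r) := by positivity
    calc C * (((Δ:ℝ) / Real.log Δ) ^ ((1:ℝ)/r) * (Real.log d / d) ^ ((1:ℝ)/r))
        ≤ C' * (((Δ:ℝ) / Real.log Δ) ^ ((1:ℝ)/r) * (c / C')) := by
          apply mul_le_mul (le_max_left _ _) _ (by positivity) hC'0.le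
          gcongr
      _ = _ := by field_simp

end Pool.Agent.Results.MP_b2f50e_co.DefectDoesNotHelp
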